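import Pool.Agent.Helper29.H2.St3

/-!
# Project H2 (MP_3ec731_nt), module D4: digits of the generated tables
-/

set_option autoImplicit false

namespace Pool.Agent.Helper29.H2

open Finset

/-- digits of a concatenation -/
private theorem dg_cat_D4 (b l A B j : ℕ) (hA : A < 2 ^ (b * l)) :
    dg b (A + 2 ^ (b * l) * B) j = if j < l then dg b A j else dg b B (j - l) := by
  unfold dg
  split_ifs with h
  · obtain ⟨d, hd⟩ : ∃ d, l = j + (d + 1) := ⟨l - j - 1, by omega⟩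
    have e1 : 2 ^ (b * l) * B = 2 ^ (b * j) * (2 ^ b * (2 ^ (b * d) * B)) := by
      rw [hd]
      ring
    rw [e1, Nat.add_mul_div_left _ _ (by positivity), Nat.add_mul_mod_self_left]
  · obtain ⟨d, hd⟩ : ∃ d, j = l + d := ⟨j - l, by omega⟩
    rw [hd, Nat.add_sub_cancel_left]
    have e1 : 2 ^ (b * (l + d)) = 2 ^ (b * l) * 2 ^ (b * d) := by ring
    rw [e1, ← Nat.div_div_eq_div_mul, Nat.add_mul_div_left _ _ (by positivity), Nat.div_eq_of_lt hA, zero_add]

private theorem rep_D4 (b l : ℕ) (hb : 0 < b) :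
    (2 ^ (b * (l + 1)) - 1) / (2 ^ b - 1) = 1 + 2 ^ b * ((2 ^ (b * l) - 1) / (2 ^ b - 1)) := by
  have h1 : 1 < 2 ^ b := Nat.one_lt_two_pow (by omega)
  have h2 : ∀ l : ℕ, (2 ^ b - 1) ∣ (2 ^ (b * l) - 1) := by
    intro l
    rw [pow_mul]
    have := Nat.sub_dvd_pow_sub_pow (2 ^ b) 1 l
    rwa [one_pow] at this
  obtain ⟨c, hc⟩ := h2 l
  have h3 : 0 < 2 ^ (b * l) := by positivity
  rw [hc, Nat.mul_div_cancel_left _ (by omega)]
  apply Nat.div_eq_of_eq_mul_right (by omega)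
  have h4 : 2 ^ (b * (l + 1)) = 2 ^ b * 2 ^ (b * l) := by ring
  have h5 : 2 ^ (b * l) = (2 ^ b - 1) * c + 1 := by omega
  rw [h4, h5]
  obtain ⟨d, hd⟩ : ∃ d, 2 ^ b = d + 1 := ⟨2 ^ b - 1, by omega⟩
  rw [hd, Nat.add_sub_cancel]
  have : (d + 1) * (d * c + 1) = d * (1 + (d + 1) * c) + 1 := by ring
  omega

/-- a constant block -/
private theorem blk_D4 (b : ℕ) (hb : 0 < b) (v : ℕ) (hv : v < 2 ^ b) (l : ℕ) :
    (2 ^ (b * l) - 1) / (2 ^ b - 1) * v < 2 ^ (b * l) ∧
    ∀ j < l, dg b ((2 ^ (b * l) - 1) / (2 ^ b - 1) * v) j = v := by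
  induction l with
  | zero => simp
  | succ l ih =>
    have e1 : (2 ^ (b * (l + 1)) - 1) / (2 ^ b - 1) * v =
        v + 2 ^ (b * 1) * ((2 ^ (b * l) - 1) / (2 ^ b - 1) * v) := by
      rw [rep_D4 b l hb, mul_one]
      ring
    rw [e1]
    constructor
    · have h1 : 2 ^ (b * (l + 1)) = 2 ^ b * 2 ^ (b * l) := by ring
      rw [h1, mul_one]
      have h2 := ih.1
      calc v + 2 ^ b * ((2 ^ (b * l) - 1) / (2 ^ b - 1) * v)
          < 2 ^ b + 2 ^ b * ((2 ^ (b * l) - 1) / (2 ^ b - 1) * v) := by omega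
        _ = 2 ^ b * ((2 ^ (b * l) - 1) / (2 ^ b - 1) * v + 1) := by ring
        _ ≤ 2 ^ b * 2 ^ (b * l) := Nat.mul_le_mul_left _ h2
    · intro j hj
      rw [dg_cat_D4 b 1 _ _ j (by rw [mul_one]; exact hv)]
      split_ifs with h
      · have : j = 0 := by omega
        rw [this]
        unfold dg
        rw [mul_zero, pow_zero, Nat.div_one, Nat.mod_eq_of_lt hv]
      · exact ih.2 (j - 1) (by omega)

private theorem seg_D4 (b : ℕ) (hb : 0 < b) (f : ℕ → ℕ) (hf : ∀ x, f x < 2 ^ b) (l : ℕ) (hl : 0 < l) (c : ℕ) :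
    ∀ x, (2 ^ (b * l) - 1) / (2 ^ b - 1) * seg b l f c x < 2 ^ (b * (l * c)) ∧
    ∀ j < l * c, dg b ((2 ^ (b * l) - 1) / (2 ^ b - 1) * seg b l f c x) j = f (x + j / l * l) := by
  induction c with
  | zero =>
    intro x
    simp [seg]
  | succ c ih =>
    intro x
    obtain ⟨h1, h2⟩ := ih (x + l)
    obtain ⟨h3, h4⟩ := blk_D4 b hb (f x) (hf x) l
    have e1 : (2 ^ (b * l) - 1) / (2 ^ b - 1) * seg b l f (c + 1) x =
        (2 ^ (b * l) - 1) / (2 ^ b - 1) * f x + 2 ^ (b * l) *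
          ((2 ^ (b * l) - 1) / (2 ^ b - 1) * seg b l f c (x + l)) := by
      show (2 ^ (b * l) - 1) / (2 ^ b - 1) * (f x + 2 ^ (b * l) * seg b l f c (x + l)) = _
      ring
    rw [e1]
    constructor
    · have h5 : 2 ^ (b * (l * (c + 1))) = 2 ^ (b * l) * 2 ^ (b * (l * c)) := by ring
      rw [h5]
      generalize (2 ^ (b * l) - 1) / (2 ^ b - 1) * seg b l f c (x + l) = W at h1
      calc (2 ^ (b * l) - 1) / (2 ^ b - 1) * f x + 2 ^ (b * l) * W
          < 2 ^ (b * l) + 2 ^ (b * l) * W := by omega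
        _ = 2 ^ (b * l) * (W + 1) := by ring
        _ ≤ 2 ^ (b * l) * 2 ^ (b * (l * c)) := Nat.mul_le_mul_left _ h1
    · intro j hj
      rw [dg_cat_D4 b l _ _ j h3]
      split_ifs with h
      · rw [h4 j h, Nat.div_eq_of_lt h]
        simp
      · have h6 : j - l < l * c := by
          have : l * (c + 1) = l * c + l := by ring
          omega
        rw [h2 (j - l) h6]
        congr 1
        obtain ⟨d, hd⟩ : ∃ d, j = l + d := ⟨j - l, by omega⟩
        have e2 : (l + d) / l * l = l + d / l * l := by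
          rw [Nat.add_div_left _ hl]
          ring
        rw [hd, Nat.add_sub_cancel_left, e2]
        omega

theorem hD4 : StD4 := by
  intro b f hb hf o
  induction o with
  | zero =>
    have h1 := seg_D4 b hb (fun x => f x 1) (fun x => hf x 1) 1 (by norm_num) 128 0
    have h2 : (2 ^ (b * 1) - 1) / (2 ^ b - 1) = 1 := by
      rw [mul_one]
      apply Nat.div_self
      have : 1 < 2 ^ b := Nat.one_lt_two_pow (by omega)
      omega
    rw [h2, one_mul] at h1
    obtain ⟨h3, h4⟩ := h1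
    constructor
    · show seg b 1 (fun x => f x 1) 128 0 < _
      simpa using h3
    · intro S hS
      have h5 := h4 S (by simpa using hS)
      show dg b (seg b 1 (fun x => f x 1) 128 0) S = _
      rw [h5]
      have h6 : bl S = 1 := by
        unfold bl
        have h7 : Nat.log 2 S < 7 := by
          by_cases h0 : S = 0
          · rw [h0]
            simp
          · exact Nat.log_lt_of_lt_pow h0 (by simpa using hS)
        have h8 : Nat.log 2 S - 6 = 0 := by omega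
        rw [h8, pow_zero]
      rw [h6]
      simp
  | succ o ih =>
    obtain ⟨h1, h2⟩ := ih
    have hl : 0 < 2 ^ (o + 1) := by positivity
    obtain ⟨h3, h4⟩ := seg_D4 b hb (fun x => f x (2 ^ (o + 1))) (fun x => hf x _) (2 ^ (o + 1)) hl 64
      (64 * 2 ^ (o + 1))
    have e0 : 128 * 2 ^ o = 64 * 2 ^ (o + 1) := by ring
    rw [e0] at h1 h2
    have e1 : gen b f (o + 1) = gen b f o + 2 ^ (b * (64 * 2 ^ (o + 1))) *
      ((2 ^ (b * 2 ^ (o + 1)) - 1) / (2 ^ b - 1) *
        seg b (2 ^ (o + 1)) (fun x => f x (2 ^ (o + 1))) 64 (64 * 2 ^ (o + 1))) := rfl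
    rw [e1]
    constructor
    · have h5 : 2 ^ (b * (128 * 2 ^ (o + 1))) =
          2 ^ (b * (64 * 2 ^ (o + 1))) * 2 ^ (b * (2 ^ (o + 1) * 64)) := by
        rw [← pow_add, show b * (64 * 2 ^ (o + 1)) + b * (2 ^ (o + 1) * 64) = b * (128 * 2 ^ (o + 1)) by ring]
      rw [h5]
      generalize (2 ^ (b * 2 ^ (o + 1)) - 1) / (2 ^ b - 1) *
        seg b (2 ^ (o + 1)) (fun x => f x (2 ^ (o + 1))) 64 (64 * 2 ^ (o + 1)) = W at h3
      calc gen b f o + 2 ^ (b * (64 * 2 ^ (o + 1))) * W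
          < 2 ^ (b * (64 * 2 ^ (o + 1))) + 2 ^ (b * (64 * 2 ^ (o + 1))) * W := by omega
        _ = 2 ^ (b * (64 * 2 ^ (o + 1))) * (W + 1) := by ring
        _ ≤ 2 ^ (b * (64 * 2 ^ (o + 1))) * 2 ^ (b * (2 ^ (o + 1) * 64)) := Nat.mul_le_mul_left _ h3
    · intro S hS
      rw [dg_cat_D4 b (64 * 2 ^ (o + 1)) _ _ S h1]
      split_ifs with h
      · exact h2 S h
      · obtain ⟨j, hj⟩ : ∃ j, S = 64 * 2 ^ (o + 1) + j := ⟨S - 64 * 2 ^ (o + 1), by omega⟩
        have hj2 : j < 2 ^ (o + 1) * 64 := by omega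
        have h6 : bl S = 2 ^ (o + 1) := by
          unfold bl
          have h7 : Nat.log 2 S = 7 + o := by
            rw [Nat.log_eq_iff (Or.inl (by omega))]
            constructor
            · have : 2 ^ (7 + o) = 64 * 2 ^ (o + 1) := by ring
              omega
            · have : 2 ^ (7 + o + 1) = 128 * 2 ^ (o + 1) := by ring
              omega
          rw [h7, show 7 + o - 6 = o + 1 by omega]
        rw [hj, Nat.add_sub_cancel_left, h4 j hj2, ← hj, h6]
        have e3 : 64 * 2 ^ (o + 1) + j / 2 ^ (o + 1) * 2 ^ (o + 1) = S / 2 ^ (o + 1) * 2 ^ (o + 1) := by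
          rw [hj, mul_comm 64, Nat.mul_add_div hl]
          ring
        show f (64 * 2 ^ (o + 1) + j / 2 ^ (o + 1) * 2 ^ (o + 1)) (2 ^ (o + 1)) = _
        rw [e3]

end Pool.Agent.Helper29.H2
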