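import Pool.Agent.Helper29.H2.St3

/-!
# Project H2 (MP_3ec731_nt), module D7: powers rounded down
-/

set_option autoImplicit false

namespace Pool.Agent.Helper29.H2

open Finset

private theorem sv_eq_D7 {α : Type} (x : ℕ) (f : ℕ → α) : sv x f = f x := by
  cases x <;> rfl

private theorem cf_add_D7 (g : ℕ → ℕ) (a c S : ℕ) :
    cf g (a + c) S = ∑ i ∈ range (S + 1), cf g a i * cf g c (S - i) := by
  unfold cf
  rw [pow_add, PowerSeries.coeff_mul, Finset.Nat.sum_antidiagonal_eq_sum_range_succ_mk]

private theorem cf_one_D7 (g : ℕ → ℕ) (S : ℕ) : cf g 1 S = g S ^ 2 := by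
  unfold cf
  rw [pow_one, PowerSeries.coeff_mk]

theorem hD7 : StD7 := by
  intro h1 h2 b n β P g hb hn hP hPd hPg t
  induction t with
  | nil =>
    intro Z m e k _ hZ hZd hZc hr
    exact ⟨Z, hr, hZ, hZd, hZc⟩
  | cons p t ih =>
    intro Z m e k hp hZ hZd hZc hr
    obtain ⟨c, s⟩ := p
    have hs : s + β ≤ b := hp (c, s) (List.mem_cons_self ..)
    have hr' : runL b n β P t (stL b n β s (cond c P Z) Z) k = true := by
      rw [← sv_eq_D7 (stL b n β s (cond c P Z) Z) (fun Z' => runL b n β P t Z' k)]
      exact hr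
    have hY : cond c P Z < 2 ^ (b * n) := by cases c <;> assumption
    have hYd : ∀ i, dg b (cond c P Z) i < 2 ^ β := by cases c <;> assumption
    obtain ⟨g1, g2, g3⟩ := h2 b n s β (cond c P Z * Z % 2 ^ (b * n)) hb hs
    have hconv := h1 b n β β (cond c P Z) Z hb hYd hZd hY hZ hn
    have key : ∀ S < n, dg b (stL b n β s (cond c P Z) Z) S * 2 ^ s ≤
        ∑ i ∈ range (S + 1), dg b (cond c P Z) i * dg b Z (S - i) := by
      intro S hS
      unfold stL
      rw [g2 S hS, hconv S hS]
      exact le_trans (Nat.mul_le_mul_right _ (Nat.mod_le _ _)) (Nat.div_mul_le_self _ _)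
    refine ih (stL b n β s (cond c P Z) Z) _ _ k (fun p hp' => hp p (List.mem_cons_of_mem _ hp')) g1 ?_ ?_ hr'
    · intro i
      unfold stL
      by_cases hi : i < n
      · rw [g2 i hi]
        exact Nat.mod_lt _ (by positivity)
      · rw [g3 i (by omega)]
        positivity
    · intro S hS
      have hk := key S hS
      cases c with
      | true =>
        show _ * 2 ^ (e + s) ≤ cf g (m + 1) S
        rw [add_comm m 1, cf_add_D7, add_comm e s, pow_add, ← mul_assoc]
        refine le_trans (Nat.mul_le_mul_right _ hk) ?_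
        rw [Finset.sum_mul]
        refine Finset.sum_le_sum fun i hi => ?_
        rw [mem_range] at hi
        have h3 : dg b P i = g i ^ 2 := hPg i (by omega)
        show dg b P i * dg b Z (S - i) * 2 ^ e ≤ _
        rw [h3, cf_one_D7, mul_assoc]
        exact Nat.mul_le_mul_left _ (hZc (S - i) (by omega))
      | false =>
        show _ * 2 ^ (2 * e + s) ≤ cf g (2 * m) S
        rw [two_mul m, cf_add_D7, add_comm (2 * e) s, pow_add, ← mul_assoc]
        refine le_trans (Nat.mul_le_mul_right _ hk) ?_
        rw [Finset.sum_mul]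
        refine Finset.sum_le_sum fun i hi => ?_
        rw [mem_range] at hi
        show dg b Z i * dg b Z (S - i) * 2 ^ (2 * e) ≤ _
        rw [two_mul, pow_add, show dg b Z i * dg b Z (S - i) * (2 ^ e * 2 ^ e) =
          (dg b Z i * 2 ^ e) * (dg b Z (S - i) * 2 ^ e) by ring]
        exact Nat.mul_le_mul (hZc i (by omega)) (hZc (S - i) (by omega))

end Pool.Agent.Helper29.H2
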