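import Pool.Agent.Helper29.H2.St3

/-!
# Project H2 (MP_3ec731_nt), module D8: powers rounded up
-/

set_option autoImplicit false

namespace Pool.Agent.Helper29.H2

open Finset

private theorem sv_eq_D8 {α : Type} (x : ℕ) (f : ℕ → α) : sv x f = f x := by
  cases x <;> rfl

private theorem cf_add_D8 (g : ℕ → ℕ) (a c S : ℕ) :
    cf g (a + c) S = ∑ i ∈ range (S + 1), cf g a i * cf g c (S - i) := by
  unfold cf
  rw [pow_add, PowerSeries.coeff_mul, Finset.Nat.sum_antidiagonal_eq_sum_range_succ_mk]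

private theorem cf_one_D8 (g : ℕ → ℕ) (S : ℕ) : cf g 1 S = g S ^ 2 := by
  unfold cf
  rw [pow_one, PowerSeries.coeff_mk]

theorem hD8 : StD8 := by
  intro h1 h2 h3 b n β P g hb2 hβ hn hP hPd hPg t
  have hb : 0 < b := by omega
  induction t with
  | nil =>
    intro Z m e k _ hZ hZd hZc hr
    exact ⟨Z, hr, hZ, hZd, hZc⟩
  | cons p t ih =>
    intro Z m e k hp hZ hZd hZc hr
    obtain ⟨c, s⟩ := p
    obtain ⟨hs1, hs2⟩ : 1 ≤ s ∧ s ≤ b := hp (c, s) (List.mem_cons_self ..)
    have hr0 : cond (Nat.beq (Nat.land (stU b n s (cond c P Z) Z) (dmk b n β)) (stU b n s (cond c P Z) Z))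
        (runU b n β P t (stU b n s (cond c P Z) Z) k) false = true := by
      rw [← sv_eq_D8 (stU b n s (cond c P Z) Z) (fun Z' =>
        cond (Nat.beq (Nat.land Z' (dmk b n β)) Z') (runU b n β P t Z' k) false)]
      exact hr
    obtain ⟨hmask, hr'⟩ : Nat.land (stU b n s (cond c P Z) Z) (dmk b n β) = stU b n s (cond c P Z) Z ∧
        runU b n β P t (stU b n s (cond c P Z) Z) k = true := by
      cases hq : Nat.beq (Nat.land (stU b n s (cond c P Z) Z) (dmk b n β)) (stU b n s (cond c P Z) Z) with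
      | true =>
        rw [hq] at hr0
        exact ⟨Nat.eq_of_beq_eq_true hq, hr0⟩
      | false =>
        rw [hq] at hr0
        exact absurd hr0 (by simp)
    have hY : cond c P Z < 2 ^ (b * n) := by cases c <;> assumption
    have hYd : ∀ i, dg b (cond c P Z) i < 2 ^ β := by cases c <;> assumption
    obtain ⟨g1, g2, g3⟩ := h2 b n s (b - s) (cond c P Z * Z % 2 ^ (b * n)) hb (by omega)
    have hconv := h1 b n β β (cond c P Z) Z hb hYd hZd hY hZ hn
    have hW : ∀ S < n, dg b (Nat.land (Nat.shiftRight (cond c P Z * Z % 2 ^ (b * n)) s) (dmk b n (b - s))) S =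
        dg b (cond c P Z * Z % 2 ^ (b * n)) S / 2 ^ s := by
      intro S hS
      rw [g2 S hS]
      apply Nat.mod_eq_of_lt
      rw [Nat.div_lt_iff_lt_mul (by positivity), ← pow_add, Nat.sub_add_cancel hs2]
      exact Nat.mod_lt _ (by positivity)
    have hW2 : ∀ S < n, dg b (Nat.land (Nat.shiftRight (cond c P Z * Z % 2 ^ (b * n)) s) (dmk b n (b - s))) S + 1 <
        2 ^ b := by
      intro S hS
      rw [g2 S hS]
      have e1 := Nat.mod_lt (dg b (cond c P Z * Z % 2 ^ (b * n)) S / 2 ^ s) (show 0 < 2 ^ (b - s) by positivity)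
      have e2 : 2 ^ (b - s) ≤ 2 ^ (b - 1) := Nat.pow_le_pow_right (by norm_num) (by omega)
      have e3 : 2 ^ (b - 1) < 2 ^ b := Nat.pow_lt_pow_right (by norm_num) (by omega)
      omega
    obtain ⟨k1, k2⟩ := (h3 b n _ hb g1).1 hW2
    have hZ'd : ∀ S, dg b (stU b n s (cond c P Z) Z) S < 2 ^ β := (h3 b n _ hb k1).2 β hβ hmask
    have key : ∀ S < n, ∑ i ∈ range (S + 1), dg b (cond c P Z) i * dg b Z (S - i) ≤
        dg b (stU b n s (cond c P Z) Z) S * 2 ^ s := by
      intro S hS
      have e1 : dg b (stU b n s (cond c P Z) Z) S = dg b (cond c P Z * Z % 2 ^ (b * n)) S / 2 ^ s + 1 := by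
        rw [← hW S hS]
        exact k2 S hS
      rw [e1, ← hconv S hS]
      exact (Nat.lt_mul_of_div_lt (Nat.lt_succ_self _) (by positivity)).le
    refine ih (stU b n s (cond c P Z) Z) _ _ k (fun p hp' => hp p (List.mem_cons_of_mem _ hp')) k1 hZ'd ?_ hr'
    intro S hS
    have hk := key S hS
    cases c with
    | true =>
      show cf g (m + 1) S ≤ _ * 2 ^ (e + s)
      rw [add_comm m 1, cf_add_D8, add_comm e s, pow_add, ← mul_assoc]
      refine le_trans ?_ (Nat.mul_le_mul_right _ hk)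
      rw [Finset.sum_mul]
      refine Finset.sum_le_sum fun i hi => ?_
      rw [mem_range] at hi
      have h3 : dg b P i = g i ^ 2 := hPg i (by omega)
      show _ ≤ dg b P i * dg b Z (S - i) * 2 ^ e
      rw [h3, cf_one_D8, mul_assoc]
      exact Nat.mul_le_mul_left _ (hZc (S - i) (by omega))
    | false =>
      show cf g (2 * m) S ≤ _ * 2 ^ (2 * e + s)
      rw [two_mul m, cf_add_D8, add_comm (2 * e) s, pow_add, ← mul_assoc]
      refine le_trans ?_ (Nat.mul_le_mul_right _ hk)
      rw [Finset.sum_mul]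
      refine Finset.sum_le_sum fun i hi => ?_
      rw [mem_range] at hi
      show _ ≤ dg b Z i * dg b Z (S - i) * 2 ^ (2 * e)
      rw [two_mul, pow_add, show dg b Z i * dg b Z (S - i) * (2 ^ e * 2 ^ e) =
        (dg b Z i * 2 ^ e) * (dg b Z (S - i) * 2 ^ e) by ring]
      exact Nat.mul_le_mul (hZc i (by omega)) (hZc (S - i) (by omega))

end Pool.Agent.Helper29.H2
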